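import Pool.Agent.MP7ae277.Main2

/-!
MP_7ae277_co, Q1 in a sharper form: all multiples of an explicit `d`, all large dimensions, finite
boxes, and steps whose coordinates have at most two different nonzero absolute values.
-/

set_option autoImplicit false

namespace Pool.Agent.Results.MP_7ae277_co.TwoStepSizes

/-- Every `k`-colouring of `{0,1,2}^N` has a monochromatic combinatorial line. -/
def HasLine (k N : ℕ) : Prop :=
  ∀ C : (Fin N → Fin 3) → Fin k, ∃ l : Combinatorics.Line (Fin 3) (Fin N), l.IsMono C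

/-- `stepNorm N = (N+1) (4^(N+1) - 2^(N+1)) 2^(N+1)`. -/
def stepNorm (N : ℕ) : ℕ := (N + 1) * ((4 ^ (N + 1) - 2 ^ (N + 1)) * 2 ^ (N + 1))

/-- For every `k ≥ 1` there is `N` with `HasLine k N` (Hales-Jewett), and for every such `N`
there is a dimension `n₀` such that for all `n ≥ n₀` and all `s ≥ 1` there is `M` such that every
`k`-colouring `c` of `ℤ^n` has `x`, `v` with `c (x - v) = c x = c (x + v)`,
`‖v‖₁ = s * stepNorm N`, all coordinates of `v` in `{0, s, -s, s * 2^(N+1)}`, and `x - v`, `x`,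
`x + v` in the box `[-M, M]^n`. -/
theorem result (k : ℕ) (hk : 1 ≤ k) :
    (∃ N : ℕ, HasLine k N) ∧ ∀ N : ℕ, HasLine k N → 0 < stepNorm N ∧
      ∃ n₀ : ℕ, 1 ≤ n₀ ∧ ∀ n : ℕ, n₀ ≤ n → ∀ s : ℕ, 1 ≤ s → ∃ M : ℕ,
        ∀ c : (Fin n → ℤ) → Fin k, ∃ x v : Fin n → ℤ,
          (∀ i, v i = 0 ∨ v i = s ∨ v i = -s ∨ v i = s * 2 ^ (N + 1)) ∧
          (∑ i, |v i|) = ((s * stepNorm N : ℕ) : ℤ) ∧
          (∀ i, |x i| + |v i| ≤ (M : ℤ)) ∧
          c (x - v) = c x ∧ c x = c (x + v) := by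
  refine ⟨Pool.Agent.MP7ae277.exists_hasLine k, fun N hN => ⟨Pool.Agent.MP7ae277.d0_pos N, ?_⟩⟩
  obtain ⟨n₀, h₀, h⟩ := Pool.Agent.MP7ae277.main2 (N := N) hk hN
  refine ⟨n₀, h₀, fun n hn s hs => ?_⟩
  obtain ⟨M, hM⟩ := h n hn s hs
  refine ⟨M, fun c => ?_⟩
  obtain ⟨x, v, h1, h2, h3, h4, h5⟩ := hM c
  refine ⟨x, v, h1, ?_, h3, h4, h5.symm⟩
  rw [h2]
  push_cast
  rfl

end Pool.Agent.Results.MP_7ae277_co.TwoStepSizes
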